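import Pool.Agent.Work.MP_db9399_ts.Light
import Pool.Agent.Work.MP_db9399_clj_helper75.CLJ3

/-!
# MP_db9399, TSPLIT: small facts about the data (helper75)
-/

set_option autoImplicit false
set_option linter.unusedSectionVars false

namespace Pool.Agent.Work.MP_db9399_ts.helper75

open Finset Classical
open Pool.Agent.Work.MP_db9399_all (nb)
open Pool.Agent.Work.MP_db9399_clj.helper75 (OO blk nB eE mem_nb dcount mem_blk mem_OO eE_nonneg)

universe u

variable {W B : Type u} [Fintype W] [Fintype B] {X : Dat W B} {c : ℝ} {Ty : Kd → Prop}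
  {gr : W → Fin 3} {g : ℕ} {L : W → Fin g} {k : Fin g} {M : ℕ} {C ζ θ : ℝ}

theorem e_comm (b b' : B) : X.e b b' = X.e b' b := dcount _ _ _

theorem e_nonneg (b b' : B) : 0 ≤ X.e b b' := eE_nonneg _ _ _

theorem tp_comm {b b' : B} : X.tp c b b' ↔ X.tp c b' b := by
  unfold Dat.tp
  rw [e_comm b b']
  exact and_congr_left fun _ => ⟨fun h => h.symm, fun h => h.symm⟩

theorem ty_iff {v : W} {b : B} (h : X.bl v = some b) : X.ty Ty v ↔ Ty (X.kd b) := by
  constructor
  · rintro ⟨b', h1, h2⟩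
    rw [h] at h1
    rw [Option.some.inj h1]
    exact h2
  · exact fun h1 => ⟨b, h, h1⟩

theorem ty_none {v : W} (h : X.bl v = none) : ¬ X.ty Ty v := by
  rintro ⟨b', h1, _⟩
  rw [h] at h1
  exact absurd h1.symm (Option.some_ne_none _)

theorem us_comm {v w : W} : X.us Ty gr L k v w ↔ X.us Ty gr L k w v := by
  unfold Dat.us
  constructor
  · rintro ⟨h1, h2, h3, h4⟩
    exact ⟨h1.symm, h3, h2, fun h5 h6 h7 => h4 h6 h5 h7.symm⟩
  · rintro ⟨h1, h2, h3, h4⟩
    exact ⟨h1.symm, h3, h2, fun h5 h6 h7 => h4 h6 h5 h7.symm⟩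

theorem eu_eq (b b' : B) : X.eu Ty gr L k b b' =
    ∑ v ∈ blk X.bl b, ∑ w ∈ blk X.bl b', if X.us Ty gr L k v w then (1 : ℝ) else 0 := by
  unfold Dat.eu
  refine sum_congr rfl fun v _ => ?_
  rw [← sum_filter, sum_const, nsmul_eq_mul, mul_one]

theorem eu_comm (b b' : B) : X.eu Ty gr L k b b' = X.eu Ty gr L k b' b := by
  rw [eu_eq, eu_eq, sum_comm]
  refine sum_congr rfl fun v _ => sum_congr rfl fun w _ => ?_
  rw [if_congr us_comm rfl rfl]

/-- a number of edges as a double sum -/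
theorem eE_sum (E : SimpleGraph W) (A A' : Finset W) :
    eE E A A' = ∑ v ∈ A, ∑ w ∈ A', if E.Adj v w then (1 : ℝ) else 0 := by
  unfold eE
  refine sum_congr rfl fun v _ => ?_
  rw [← sum_filter, sum_const, nsmul_eq_mul, mul_one]
  congr 2
  ext w
  rw [mem_inter, mem_nb, mem_filter]
  tauto

theorem e_sum (b b' : B) : X.e b b' =
    ∑ v ∈ blk X.bl b, ∑ w ∈ blk X.bl b', if X.Th.Adj v w then (1 : ℝ) else 0 := eE_sum _ _ _

theorem mv_none {v : W} (h : ¬ X.ty Ty v) : X.mv Ty L k v = 1 := by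
  unfold Dat.mv mu
  rw [if_neg]
  intro h1
  exact h (mem_filter.1 h1).2

theorem mv_ty {v : W} (h : X.ty Ty v) :
    X.mv Ty L k v = if L v = k then 0 else (g : ℝ) / (g - 1) := by
  unfold Dat.mv mu
  rw [if_pos (mem_filter.2 ⟨mem_univ _, h⟩)]

theorem ak_none {v : W} (h : ¬ X.ty Ty v) : X.ak Ty L k v := fun h1 => absurd h1 h

/-- vertices of `O` have no bulk edges -/
theorem th_O (hE : Env X M C ζ θ c) {v y : W} (h : X.bl y = none) :
    X.Th.Adj v y ↔ X.G.Adj v y := by
  unfold Dat.Th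
  rw [SimpleGraph.sdiff_adj]
  refine ⟨fun h1 => h1.1, fun h1 => ⟨h1, fun h2 => ?_⟩⟩
  obtain ⟨b, _, h3⟩ := hE.bk v y h2
  rw [h] at h3
  exact absurd h3.symm (Option.some_ne_none _)

/-- flexible edges at a light vertex -/
theorem fl_iff {v y : W} {b : B} (h : X.bl v = some b) :
    (X.fl Ty gr c v y ∨ X.fl Ty gr c y v) ↔ X.fl Ty gr c v y := by
  refine ⟨fun h1 => ?_, Or.inl⟩
  rcases h1 with h1 | h1
  · exact h1
  rcases h1 with h1 | h1
  · have := h1.1
    rw [h] at this
    exact absurd this (Option.some_ne_none _)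
  · right
    obtain ⟨h2, ⟨b1, b2, h3, h4, h5, h6⟩, h7⟩ := h1
    exact ⟨h2.symm, ⟨b2, b1, h4, h3, tp_comm.1 h5, h6.symm⟩,
      fun h8 => h7 ⟨h8.2.1, h8.1, h8.2.2.symm⟩⟩

/-- number of the blocks of a cluster -/
theorem card_cl (hE : Env X M C ζ θ c) (q : ℕ) :
    ((univ.filter fun b => X.cb b = q).card : ℝ) ≤ M := by
  have h : (univ.filter fun b => X.cb b = q).card ≤ (range M).card := by
    refine card_le_card_of_injOn X.ix (fun b _ => ?_) fun b hb b' hb' h => ?_
    · exact mem_coe.2 (mem_range.2 (hE.ixM b))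
    · have h1 := (mem_filter.1 (mem_coe.1 hb)).2
      have h2 := (mem_filter.1 (mem_coe.1 hb')).2
      exact hE.ixi b b' (h1.trans h2.symm) h
  rw [card_range] at h
  exact_mod_cast h

/-- not pushing on fat pairs: then all light neighbours outside the fat pairs are scattered outer
ones -/
theorem h3_facts (hE : Env X M C ζ θ c) (hd : 0 < X.d)
    (hM : (M : ℝ) * (X.d : ℝ) ^ (c / 16) < X.d / 2) (hd4 : (X.d : ℝ) ^ (c / 4) ≤ 3 / 8 * X.d)
    {x : W} (h : X.h3 c x) :
    X.bl x = none ∧ X.cq x = none ∧ 3 / 8 * (X.d : ℝ) ≤ ((X.sc c x).card : ℝ) ∧ X.nf c x = ∅ ∧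
      (X.d : ℝ) ^ (c / 4) ≤ ((X.sc c x).card : ℝ) := by
  obtain ⟨⟨hbl, hnO⟩, hfx⟩ := h
  have hd0 : (0 : ℝ) < X.d := by exact_mod_cast hd
  -- the neighbours in the block `b`
  have hcq : X.cq x = none := by
    by_contra hcon
    obtain ⟨q, hq⟩ := Option.ne_none_iff_exists'.1 hcon
    have h1 := hE.v0n x q hbl hq
    have h2 : (((nb X.G x).filter fun v => X.bl v ≠ none ∧ X.cq v = some q).card : ℝ) ≤
        ∑ b with X.cb b = q, X.n x b := by
      have h3 : (nb X.G x).filter (fun v => X.bl v ≠ none ∧ X.cq v = some q) ⊆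
          (univ.filter fun b => X.cb b = q).biUnion fun b => nb X.G x ∩ blk X.bl b := by
        intro v hv
        rw [mem_filter] at hv
        obtain ⟨b, hb⟩ := Option.ne_none_iff_exists'.1 hv.2.1
        have h4 := hE.cl v b hb
        rw [hv.2.2] at h4
        exact mem_biUnion.2 ⟨b, mem_filter.2 ⟨mem_univ _, (Option.some.inj h4).symm⟩,
          mem_inter.2 ⟨hv.1, mem_blk.2 hb⟩⟩
      unfold Dat.n nB
      exact_mod_cast (card_le_card h3).trans card_biUnion_le
    have h3 : ∑ b with X.cb b = q, X.n x b ≤ ∑ b with X.cb b = q,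
        ((if X.pb c x b then X.n x b else 0) + (X.d : ℝ) ^ (c / 16)) := by
      refine sum_le_sum fun b hb => ?_
      have hp : 0 ≤ (X.d : ℝ) ^ (c / 16) := by positivity
      by_cases hf : X.fat c x b
      · rw [if_pos ⟨hf, Or.inr (by rw [hq, (mem_filter.1 hb).2])⟩]
        linarith
      · have h5 : X.n x b < (X.d : ℝ) ^ (c / 16) := not_le.1 hf
        split_ifs with h6
        · exact absurd h6.1 hf
        · linarith
    have h4 : ∑ b with X.cb b = q, ((if X.pb c x b then X.n x b else 0) + (X.d : ℝ) ^ (c / 16)) ≤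
        X.fx c x + M * (X.d : ℝ) ^ (c / 16) := by
      rw [sum_add_distrib, sum_const, nsmul_eq_mul]
      refine add_le_add ?_ (mul_le_mul_of_nonneg_right (card_cl hE q) (by positivity))
      rw [← sum_filter, filter_filter]
      unfold Dat.fx
      refine sum_le_sum_of_subset_of_nonneg ?_ fun _ _ _ => ?_
      · intro b hb
        rw [mem_filter] at hb
        exact mem_filter.2 ⟨mem_univ _, hb.2.2⟩
      · unfold Dat.n nB
        positivity
    linarith
  have hlg : (X.d : ℝ) / 2 ≤ X.lg x := by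
    have h1 : (nb X.G x).card ≤ (nb X.FO x).card +
        ((nb X.G x).filter fun v => X.bl v ≠ none).card := by
      rw [← card_filter_add_card_filter_not (s := nb X.G x) (fun v => X.bl v = none)]
      refine Nat.add_le_add ?_ le_rfl
      refine card_le_card fun v hv => ?_
      rw [mem_filter, mem_nb] at hv
      rw [mem_nb]
      exact ⟨hv.1, hbl, hv.2⟩
    rw [hE.reg] at h1
    have h2 : (X.d : ℝ) ≤ X.nO x + X.lg x := by
      unfold Dat.nO Dat.lg
      exact_mod_cast h1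
    linarith
  have hsplit : X.lg x ≤ X.fx c x + ((X.sc c x).card : ℝ) := by
    have h1 : (nb X.G x).filter (fun v => X.bl v ≠ none) ⊆
        ((univ.filter fun b => X.pb c x b).biUnion fun b => nb X.G x ∩ blk X.bl b) ∪ X.sc c x := by
      intro v hv
      rw [mem_filter] at hv
      obtain ⟨b, hb⟩ := Option.ne_none_iff_exists'.1 hv.2
      by_cases hf : X.fat c x b
      · exact mem_union_left _ (mem_biUnion.2 ⟨b, mem_filter.2 ⟨mem_univ _, hf, Or.inl hcq⟩,
          mem_inter.2 ⟨hv.1, mem_blk.2 hb⟩⟩)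
      · refine mem_union_right _ (mem_filter.2 ⟨hv.1, b, hb, hf, ?_⟩)
        rw [hcq, hE.cl v b hb]
        exact (Option.some_ne_none _).symm
    have h2 := (card_le_card h1).trans (card_union_le _ _)
    have h3 := h2.trans (Nat.add_le_add_right card_biUnion_le _)
    unfold Dat.lg Dat.fx Dat.n nB
    exact_mod_cast h3
  have hsc : 3 / 8 * (X.d : ℝ) ≤ ((X.sc c x).card : ℝ) := by linarith
  have hsc4 : (X.d : ℝ) ^ (c / 4) ≤ ((X.sc c x).card : ℝ) := hd4.trans hsc
  refine ⟨hbl, hcq, hsc, ?_, hsc4⟩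
  rw [eq_empty_iff_forall_notMem]
  intro v hv
  rw [Dat.nf, mem_filter] at hv
  obtain ⟨hv1, ⟨b, hb, hf⟩, h2⟩ := hv
  apply h2
  refine ⟨hbl, mem_filter.2 ⟨hv1, b, hb, hf, ?_⟩, hsc4⟩
  rw [hcq, hE.cl v b hb]
  exact (Option.some_ne_none _).symm

end Pool.Agent.Work.MP_db9399_ts.helper75
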