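import Pool.Agent.Work.MP_db9399_ts_helper75.FRW2

/-!
# MP_db9399, TSPLIT, FRW: the sums at the blocks of kind S, part 3 (helper75)
-/

set_option autoImplicit false
set_option linter.unusedSectionVars false

namespace Pool.Agent.Work.MP_db9399_ts.helper75

open Finset Classical
open Pool.Agent.Work.MP_db9399_all (nb)
open Pool.Agent.Work.MP_db9399_clj.helper75 (OO blk nB eE mem_nb dcount mem_blk mem_OO eE_nonneg)

universe u

section Sums

variable {W B : Type u} [Fintype W] [Fintype B] {X : Dat W B} {c σ ε ε' : ℝ} {Ty : Kd → Prop}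
  {gr : W → Fin 3} {g : ℕ} {L : W → Fin g} {k : Fin g} {M : ℕ} {C ζ θ : ℝ}
  {off : Fin g → W → ℝ} {w' : Fin g → Sym2 W → ℝ}

theorem s7 {b : B}
    (heu : ∀ b', X.nrm Ty c ε' b b' → X.e b b' ≠ 0 → X.eu Ty gr L k b b' ≠ 0) :
    ∑ v ∈ blk X.bl b, ∑ y, p7 X Ty gr c σ ε' L k b v y = 0 := by
  rw [by_blocks (X := X) (blk X.bl b) (fun b' v y => if X.Th.Adj v y then
        (if X.nrm Ty c ε' b b' then
        (if X.us Ty gr L k v y then σ * X.e b b' / X.eu Ty gr L k b b' else 0) - σ else 0)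
        else 0) (fun v y => p7 X Ty gr c σ ε' L k b v y)
    (fun v y h => by
      simp only [p7, h]
      split_ifs <;> rfl)
    (fun v y b' h => by simp only [p7, h])]
  refine sum_eq_zero fun b' _ => ?_
  by_cases hn : X.nrm Ty c ε' b b'
  · have h2 : ∀ v y, (if X.Th.Adj v y then (if X.nrm Ty c ε' b b' then
        (if X.us Ty gr L k v y then σ * X.e b b' / X.eu Ty gr L k b b' else 0) - σ else 0)
        else 0) = (σ * X.e b b' / X.eu Ty gr L k b b') * (if X.us Ty gr L k v y then 1 else 0) -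
          σ * (if X.Th.Adj v y then 1 else 0) := by
      intro v y
      by_cases h3 : X.Th.Adj v y
      · rw [if_pos h3, if_pos hn, if_pos h3]
        by_cases h4 : X.us Ty gr L k v y
        · rw [if_pos h4, if_pos h4]
          ring
        · rw [if_neg h4, if_neg h4]
          ring
      · rw [if_neg h3, if_neg h3, if_neg (fun h => h3 h.1)]
        ring
    simp only [h2, sum_sub_distrib, ← mul_sum]
    rw [← eu_eq, ← e_sum]
    by_cases he : X.e b b' = 0
    · rw [he]
      simp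
    · rw [div_mul_cancel₀ _ (heu b' hn he), sub_self]
  · refine sum_eq_zero fun v _ => sum_eq_zero fun y _ => ?_
    rw [if_neg hn]
    split_ifs <;> rfl

theorem s8 (hE : Env X M C ζ θ c) (hσ : 0 < σ) (hσ1 : σ ≤ 1) (hε' : 0 < ε')
    (hM : (M : ℝ) * ε' ≤ ε) (b : B) :
    |∑ v ∈ blk X.bl b, ∑ y, p8 X Ty σ ε' b v y| ≤ ε * X.d := by
  rw [by_blocks (X := X) (blk X.bl b) (fun b' v y =>
    if X.Th.Adj v y then (if X.zer Ty ε' b b' then -σ else 0) else 0)
    (fun v y => p8 X Ty σ ε' b v y)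
    (fun v y h => by
      simp only [p8, h]
      split_ifs <;> rfl)
    (fun v y b' h => by simp only [p8, h])]
  have h2 : ∀ b', |∑ v ∈ blk X.bl b, ∑ y ∈ blk X.bl b',
      (if X.Th.Adj v y then (if X.zer Ty ε' b b' then -σ else 0) else 0)| ≤
      if X.cb b' = X.cb b then ε' * X.d else 0 := by
    intro b'
    have hd : (0 : ℝ) ≤ X.d := Nat.cast_nonneg _
    by_cases hz : X.zer Ty ε' b b'
    · have h3 : ∑ v ∈ blk X.bl b, ∑ y ∈ blk X.bl b',
          (if X.Th.Adj v y then (if X.zer Ty ε' b b' then -σ else 0) else 0) =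
          -σ * X.e b b' := by
        rw [e_sum, mul_sum]
        refine sum_congr rfl fun v _ => ?_
        rw [mul_sum]
        refine sum_congr rfl fun y _ => ?_
        by_cases h4 : X.Th.Adj v y
        · rw [if_pos h4, if_pos h4, if_pos hz, mul_one]
        · rw [if_neg h4, if_neg h4, mul_zero]
      rw [h3, if_pos hz.2.1.symm, abs_mul, abs_neg, abs_of_pos hσ, abs_of_nonneg (e_nonneg _ _)]
      calc σ * X.e b b' ≤ 1 * (ε' * X.d) :=
            mul_le_mul hσ1 hz.2.2.2.2.le (e_nonneg _ _) zero_le_one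
        _ = _ := one_mul _
    · rw [sum_eq_zero, abs_zero]
      · split_ifs
        · positivity
        · exact le_rfl
      · intro v _
        refine sum_eq_zero fun y _ => ?_
        rw [if_neg hz]
        split_ifs <;> rfl
  refine (abs_sum_le_sum_abs _ _).trans ((sum_le_sum fun b' _ => h2 b').trans ?_)
  rw [← sum_filter, sum_const, nsmul_eq_mul]
  have h3 := card_cl hE (X.cb b)
  have hd : (0 : ℝ) ≤ X.d := Nat.cast_nonneg _
  calc ((univ.filter fun b' => X.cb b' = X.cb b).card : ℝ) * (ε' * X.d) ≤ M * (ε' * X.d) :=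
        mul_le_mul_of_nonneg_right h3 (by positivity)
    _ = M * ε' * X.d := by ring
    _ ≤ ε * X.d := mul_le_mul_of_nonneg_right hM hd

theorem s9 (hE : Env X M C ζ θ c) (hL : LabF X Ty gr c σ ε ε' off L w') (hσ : 0 < σ)
    (hσ1 : σ ≤ 1) (b : B) :
    |∑ v ∈ blk X.bl b, ∑ y, p9 X Ty σ L k b v y| ≤ ε * X.d := by
  by_cases hb : Ty (X.kd b)
  · have h1 : ∑ v ∈ blk X.bl b, ∑ y, p9 X Ty σ L k b v y =
        σ * ∑ v ∈ blk X.bl b, (X.mv Ty L k v - 1) * (((nb X.Th v).filter fun w =>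
          ¬ X.ty Ty w ∧ ∃ b', X.bl w = some b' ∧ X.cb b' = X.cb b).card : ℝ) := by
      rw [mul_sum]
      refine sum_congr rfl fun v hv => ?_
      have h2 : ∀ y, p9 X Ty σ L k b v y = if y ∈ (nb X.Th v).filter (fun w =>
          ¬ X.ty Ty w ∧ ∃ b', X.bl w = some b' ∧ X.cb b' = X.cb b) then
          σ * (X.mv Ty L k v - 1) else 0 := by
        intro y
        unfold p9
        by_cases hT : X.Th.Adj v y
        · rw [if_pos hT]
          rcases hy : X.bl y with _ | b'
          · simp only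
            rw [if_neg]
            intro h
            obtain ⟨b', h3, _⟩ := (mem_filter.1 h).2.2
            rw [hy] at h3
            exact absurd h3.symm (Option.some_ne_none _)
          · simp only
            by_cases h3 : X.cb b' = X.cb b ∧ ¬ Ty (X.kd b')
            · have h4 : ¬ X.ty Ty y := by
                rw [ty_iff hy]
                exact h3.2
              rw [if_pos ⟨h3.1, fun h => h3.2 h.2⟩, mv_none h4, mul_one, if_pos]
              exact mem_filter.2 ⟨mem_nb.2 hT, h4, b', hy, h3.1⟩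
            · rw [if_neg, if_neg]
              · intro h
                obtain ⟨_, h4, b1, h5, h6⟩ := mem_filter.1 h
                rw [hy] at h5
                rw [← Option.some.inj h5] at h6
                rw [ty_iff hy] at h4
                exact h3 ⟨h6, h4⟩
              · rintro ⟨h4, h5⟩
                exact h3 ⟨h4, fun h => h5 ⟨hb, h⟩⟩
        · rw [if_neg hT, if_neg]
          intro h
          exact hT (mem_nb.1 (mem_filter.1 h).1)
      rw [sum_congr rfl fun y _ => h2 y, ← sum_filter, sum_const, nsmul_eq_mul]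
      have h3 : univ.filter (fun y => y ∈ (nb X.Th v).filter (fun w =>
          ¬ X.ty Ty w ∧ ∃ b', X.bl w = some b' ∧ X.cb b' = X.cb b)) =
          (nb X.Th v).filter (fun w =>
            ¬ X.ty Ty w ∧ ∃ b', X.bl w = some b' ∧ X.cb b' = X.cb b) := by
        ext y
        rw [mem_filter]
        exact ⟨fun h => h.2, fun h => ⟨mem_univ _, h⟩⟩
      rw [h3]
      ring
    rw [h1, abs_mul, abs_of_pos hσ]
    have := mul_le_mul hσ1 (hL.n7 k b) (abs_nonneg _) zero_le_one
    linarith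
  · have h1 : ∑ v ∈ blk X.bl b, ∑ y, p9 X Ty σ L k b v y =
        σ * ∑ w with X.ty Ty w ∧ X.cq w = some (X.cb b),
          (X.mv Ty L k w - 1) * ((nb X.Th w ∩ blk X.bl b).card : ℝ) := by
      rw [sum_comm, mul_sum, sum_filter]
      refine sum_congr rfl fun y _ => ?_
      by_cases hy : X.ty Ty y ∧ X.cq y = some (X.cb b)
      · rw [if_pos hy]
        obtain ⟨b', h2, h3⟩ := hy.1
        have h4 : X.cb b' = X.cb b := by
          have := hE.cl y b' h2
          rw [hy.2] at this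
          exact (Option.some.inj this).symm
        have h5 : ∀ v ∈ blk X.bl b, p9 X Ty σ L k b v y =
            if X.Th.Adj v y then σ * (X.mv Ty L k y - 1) else 0 := by
          intro v hv
          have h6 : ¬ X.ty Ty v := by
            rw [ty_iff (mem_blk.1 hv)]
            exact hb
          unfold p9
          rw [h2]
          simp only
          rw [if_pos (show X.cb b' = X.cb b ∧ ¬ (Ty (X.kd b) ∧ Ty (X.kd b')) from
            ⟨h4, fun h => hb h.1⟩), mv_none h6, one_mul]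
        rw [sum_congr rfl h5, ← sum_filter, sum_const, nsmul_eq_mul]
        have h7 : (blk X.bl b).filter (fun v => X.Th.Adj v y) = nb X.Th y ∩ blk X.bl b := by
          ext v
          rw [mem_filter, mem_inter, mem_nb, X.Th.adj_comm]
          tauto
        rw [h7]
        ring
      · rw [if_neg hy]
        refine sum_eq_zero fun v hv => ?_
        have h6 : ¬ X.ty Ty v := by
          rw [ty_iff (mem_blk.1 hv)]
          exact hb
        unfold p9
        by_cases hT : X.Th.Adj v y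
        · rw [if_pos hT]
          rcases h2 : X.bl y with _ | b'
          · rfl
          · simp only
            by_cases h3 : X.cb b' = X.cb b ∧ ¬ (Ty (X.kd b) ∧ Ty (X.kd b'))
            · rw [if_pos h3]
              have h4 : ¬ X.ty Ty y := by
                intro h
                apply hy
                refine ⟨h, ?_⟩
                rw [hE.cl y b' h2, h3.1]
              rw [mv_none h6, mv_none h4]
              ring
            · rw [if_neg h3]
        · rw [if_neg hT]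
    rw [h1, abs_mul, abs_of_pos hσ]
    have := mul_le_mul hσ1 (hL.n8 k b hb) (abs_nonneg _) zero_le_one
    linarith

theorem eu_un {b b' : B} (hb : ¬ Ty (X.kd b)) (hb' : ¬ Ty (X.kd b')) :
    X.eu Ty gr L k b b' = X.e b b' := by
  rw [eu_eq, e_sum]
  refine sum_congr rfl fun v hv => sum_congr rfl fun w hw => ?_
  have h1 : ¬ X.ty Ty v := by
    rw [ty_iff (mem_blk.1 hv)]
    exact hb
  have h2 : ¬ X.ty Ty w := by
    rw [ty_iff (mem_blk.1 hw)]
    exact hb'
  exact if_congr ⟨fun h => h.1, fun h => ⟨h, ak_none h1, ak_none h2, fun h3 => absurd h3 h1⟩⟩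
    rfl rfl

theorem frac_lb (hg : 2 ≤ g) : (1 : ℝ) / 2 ≤ ((g : ℝ) - 1) / g := by
  have h : (2 : ℝ) ≤ g := by exact_mod_cast hg
  rw [div_le_div_iff₀ (by norm_num) (by linarith)]
  linarith

theorem ne_of_near {a s q n : ℝ} (h : |a - s * n| ≤ q * n) (hs : 1 / 2 ≤ s) (hq : q < 1 / 2)
    (hn : 0 < n) : a ≠ 0 := by
  intro h0
  rw [h0, zero_sub, abs_neg, abs_of_nonneg (by positivity)] at h
  nlinarith

theorem heu_of (hL : LabF X Ty gr c σ ε ε' off L w') (hg : 2 ≤ g)
    (hd1 : (X.d : ℝ) ^ (-(c / 40)) < 1 / 2) {b : B} :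
    ∀ b', X.nrm Ty c ε' b b' → X.e b b' ≠ 0 → X.eu Ty gr L k b b' ≠ 0 := by
  intro b' hn he
  have he0 : 0 < X.e b b' := lt_of_le_of_ne (e_nonneg _ _) (Ne.symm he)
  rcases hn.2 with ⟨h1, h2⟩ | ⟨h1, h2, h3, h4⟩
  · have h3 : (X.d : ℝ) ^ (1 - 3 * c / 4) ≤ X.e b b' := by
      by_contra hcon
      exact h2 ⟨h1, not_le.1 hcon⟩
    by_cases hb : Ty (X.kd b)
    · by_cases hb' : Ty (X.kd b')
      · have := hL.th2 k b b' h1 h3 hb hb'
        exact (lt_of_lt_of_le (by positivity) this).ne'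
      · exact ne_of_near (hL.th1 k b b' h1 h3 hb hb') (frac_lb hg) hd1 he0
    · by_cases hb' : Ty (X.kd b')
      · rw [eu_comm]
        rw [e_comm] at h3 he0
        exact ne_of_near (hL.th1 k b' b (fun h => h1 h.symm) h3 hb' hb) (frac_lb hg) hd1 he0
      · rw [eu_un hb hb']
        exact he
  · have := hL.in2 k b b' h1 h2 h3 h4
    exact (lt_of_lt_of_le (by positivity) this).ne'

theorem hna_of (hL : LabF X Ty gr c σ ε ε' off L w') (hg : 2 ≤ g) (hd : 0 < X.d)
    (hd1 : (X.d : ℝ) ^ (-(c / 40)) < 1 / 2) {b : B} :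
    ∀ y, X.bl y = none → X.fat c y b → X.na Ty L k y b ≠ 0 := by
  intro y hy hf
  have hd0 : (0 : ℝ) < X.d := by exact_mod_cast hd
  have hn : 0 < X.n y b := lt_of_lt_of_le (Real.rpow_pos_of_pos hd0 _) hf
  by_cases hb : Ty (X.kd b)
  · exact ne_of_near (hL.fat k y b hy hf hb) (frac_lb hg) hd1 hn
  · have h1 : X.na Ty L k y b = X.n y b := by
      unfold Dat.na Dat.n nB
      congr 2
      ext v
      rw [mem_filter, mem_inter, mem_blk]
      constructor
      · rintro ⟨h1, h2, _⟩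
        exact ⟨h1, h2⟩
      · rintro ⟨h1, h2⟩
        refine ⟨h1, h2, ak_none ?_⟩
        rw [ty_iff h2]
        exact hb
    rw [h1]
    exact hn.ne'

/-- the thin degree as a sum -/
theorem td_sum (v : W) : X.td v = ∑ y, if X.Th.Adj v y then (1 : ℝ) else 0 := by
  rw [← sum_filter, sum_const, nsmul_eq_mul, mul_one]
  unfold Dat.td
  congr 2

/-- **FRW for one block.** -/
theorem frw (hg : 2 ≤ g) (hσ : 0 < σ) (hσ1 : σ ≤ 1) (hε' : 0 < ε') (hMε : (M : ℝ) * ε' ≤ ε)
    (hE : Env X M C ζ θ c) (hG : Grp X c gr)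
    (hTy : Ty = (fun κ => κ = Kd.K) ∨ Ty = fun κ => κ ≠ Kd.K) (hO : OffH X c ε (off k))
    (hL : LabF X Ty gr c σ ε ε' off L w') (hd : 0 < X.d)
    (hd1 : (X.d : ℝ) ^ (-(c / 40)) < 1 / 2)
    (hd2 : (M : ℝ) * (X.d : ℝ) ^ (c / 16) < X.d / 2) (hd3 : (X.d : ℝ) ^ (c / 4) ≤ 3 / 8 * X.d)
    (hd4 : (X.d : ℝ) ^ (1 - c / 2) + 3 * (X.d : ℝ) ^ (1 - 2 * c / 5) ≤ ε * X.d) {b : B}
    (hb : X.kd b = Kd.S) :
    |∑ v ∈ blk X.bl b, ∑ y, X.wt Ty gr c σ ε' off L w' k v y -
      σ * ∑ v ∈ blk X.bl b, X.td v| ≤ 10 * ε * X.d := by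
  have hsum : ∑ v ∈ blk X.bl b, ∑ y, X.wt Ty gr c σ ε' off L w' k v y -
      σ * ∑ v ∈ blk X.bl b, X.td v = ∑ v ∈ blk X.bl b, ∑ y, p1 X Ty gr c σ off w' k v y +
      ∑ v ∈ blk X.bl b, ∑ y, p2 X c off k v y + ∑ v ∈ blk X.bl b, ∑ y, p3 X Ty gr c σ v y +
      ∑ v ∈ blk X.bl b, ∑ y, p4 X Ty c σ off L k b v y +
      ∑ v ∈ blk X.bl b, ∑ y, p5 X Ty c σ L k v y +
      ∑ v ∈ blk X.bl b, ∑ y, p7 X Ty gr c σ ε' L k b v y +
      ∑ v ∈ blk X.bl b, ∑ y, p8 X Ty σ ε' b v y +
      ∑ v ∈ blk X.bl b, ∑ y, p9 X Ty σ L k b v y := by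
    rw [mul_sum, ← sum_sub_distrib]
    simp only [← sum_add_distrib]
    refine sum_congr rfl fun v hv => ?_
    rw [td_sum, mul_sum, ← sum_sub_distrib]
    refine sum_congr rfl fun y _ => ?_
    rw [← tau_eq hE hσ hb (mem_blk.1 hv)]
    unfold tau
    congr 1
    split_ifs
    · rw [mul_one]
    · rw [mul_zero]
  have q1 := s1 (k := k) hL hb
  have q2 := s2 (fun x hx => ⟨(h3_facts hE hd hd2 hd3 hx).1, (h3_facts hE hd hd2 hd3 hx).2.2.2.2⟩)
    hO b
  have q3 := s3 (σ := σ) hG hσ hσ1 hTy hb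
  have q4 := s4 (k := k) hL hO hσ hσ1 (hna_of hL hg hd hd1 (b := b))
  have q5 := s5 (k := k) hL hσ hσ1 b
  have q7 := s7 (k := k) (σ := σ) (heu_of hL hg hd1 (b := b))
  have q8 := s8 (Ty := Ty) hE hσ hσ1 hε' hMε b
  have q9 := s9 (k := k) hE hL hσ hσ1 b
  rw [hsum, q7]
  rw [abs_le] at q1 q2 q3 q4 q5 q8 q9 ⊢
  constructor <;> linarith

end Sums

theorem stmt_FRW : Stmt_FRW.{u} := by
  intro g M C σ1 ε ε' c hg hC hσ1 hε hε' hMε hc hc1
  have e1 : ∀ᶠ d : ℕ in Filter.atTop, (d : ℝ) ^ (-(c / 40)) < 1 / 2 := by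
    have h := (tendsto_rpow_neg_atTop (show 0 < c / 40 by positivity)).comp
      tendsto_natCast_atTop_atTop
    exact h.eventually (gt_mem_nhds (by norm_num))
  have small : ∀ {s K η : ℝ}, s < 1 → 0 < η → ∀ᶠ d : ℕ in Filter.atTop,
      K * (d : ℝ) ^ s < η * d := by
    intro s K η hs hη
    have h := (tendsto_rpow_neg_atTop (show 0 < 1 - s by linarith)).comp
      tendsto_natCast_atTop_atTop
    have h2 : ∀ᶠ d : ℕ in Filter.atTop, (d : ℝ) ^ (-(1 - s)) < η / (|K| + 1) :=
      h.eventually (gt_mem_nhds (by positivity))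
    filter_upwards [h2, Filter.eventually_gt_atTop 0] with d hd hd0
    have hd1 : (0 : ℝ) < d := by exact_mod_cast hd0
    have e : (d : ℝ) ^ s = (d : ℝ) ^ (-(1 - s)) * d := by
      nth_rewrite 3 [← Real.rpow_one (d : ℝ)]
      rw [← Real.rpow_add hd1]
      congr 1
      ring
    rw [e, ← mul_assoc]
    refine mul_lt_mul_of_pos_right ?_ hd1
    have h3 : 0 < (d : ℝ) ^ (-(1 - s)) := Real.rpow_pos_of_pos hd1 _
    rw [lt_div_iff₀ (by positivity)] at hd
    have h4 : K * (d : ℝ) ^ (-(1 - s)) ≤ |K| * (d : ℝ) ^ (-(1 - s)) :=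
      mul_le_mul_of_nonneg_right (le_abs_self K) h3.le
    nlinarith
  have e2 := @small (c / 16) (M : ℝ) (1 / 2) (by linarith) (by norm_num)
  have e3 := @small (c / 4) 1 (3 / 8) (by linarith) (by norm_num)
  have e4 := @small (1 - c / 2) 1 (ε / 2) (by linarith) (by positivity)
  have e5 := @small (1 - 2 * c / 5) 3 (ε / 2) (by linarith) (by positivity)
  obtain ⟨d0, hd0⟩ := Filter.eventually_atTop.1 ((((e1.and e2).and e3).and e4).and
    (e5.and (Filter.eventually_gt_atTop 0)))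
  refine ⟨d0, ?_⟩
  intro W B _ _ X Ty gr σ off L w' hd hs1 hs2 hE hG hTy hO hL k b hb
  obtain ⟨⟨⟨⟨f1, f2⟩, f3⟩, f4⟩, f5, f6⟩ := hd0 X.d hd
  exact frw hg (by linarith) hs2 hε' hMε hE hG hTy (hO k) hL f6 f1 (by linarith) (by linarith)
    (by linarith) hb

end Pool.Agent.Work.MP_db9399_ts.helper75
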