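import Pool.Agent.Work.MP_db9399_ts_helper75.Bas

/-!
# MP_db9399, TSPLIT, FRW: the sums at the blocks of kind S, part 1: pieces (helper75)
-/

set_option autoImplicit false
set_option linter.unusedSectionVars false

namespace Pool.Agent.Work.MP_db9399_ts.helper75

open Finset Classical
open Pool.Agent.Work.MP_db9399_all (nb)
open Pool.Agent.Work.MP_db9399_clj.helper75 (OO blk nB eE mem_nb dcount mem_blk mem_OO eE_nonneg)

universe u

variable {W B : Type u} [Fintype W] [Fintype B] {X : Dat W B} {c σ ε ε' : ℝ} {Ty : Kd → Prop}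
  {gr : W → Fin 3} {g : ℕ} {L : W → Fin g} {k : Fin g} {M : ℕ} {C ζ θ : ℝ}
  {off : Fin g → W → ℝ} {w' : Fin g → Sym2 W → ℝ}

/-- difference of the weight and the share -/
noncomputable def tau (X : Dat W B) (Ty : Kd → Prop) (gr : W → Fin 3) (c σ ε' : ℝ)
    (off : Fin g → W → ℝ) (L : W → Fin g) (w' : Fin g → Sym2 W → ℝ) (k : Fin g) (v y : W) : ℝ :=
  X.wt Ty gr c σ ε' off L w' k v y - if X.Th.Adj v y then σ else 0

/-- flexible edges -/
noncomputable def p1 (X : Dat W B) (Ty : Kd → Prop) (gr : W → Fin 3) (c σ : ℝ)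
    (off : Fin g → W → ℝ) (w' : Fin g → Sym2 W → ℝ) (k : Fin g) (v y : W) : ℝ :=
  if X.fl Ty gr c v y then w' k s(v, y) - X.w0 Ty c σ off k s(v, y) else 0

/-- offsets of the hubs -/
noncomputable def p2 (X : Dat W B) (c : ℝ) (off : Fin g → W → ℝ) (k : Fin g) (v y : W) : ℝ :=
  if X.flH c v y ∧ X.h3 c y then off k y / ((X.sc c y).card : ℝ) else 0

/-- pairs of typed vertices in thin pairs of blocks -/
noncomputable def p3 (X : Dat W B) (Ty : Kd → Prop) (gr : W → Fin 3) (c σ : ℝ) (v y : W) : ℝ :=
  if X.Th.Adj v y ∧ (∃ b b', X.bl v = some b ∧ X.bl y = some b' ∧ X.tp c b b') ∧ X.ty Ty v ∧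
    X.ty Ty y then σ * (if gr v = gr y then -1 else 1 / 2) else 0

/-- fat pairs -/
noncomputable def p4 (X : Dat W B) (Ty : Kd → Prop) (c σ : ℝ) (off : Fin g → W → ℝ)
    (L : W → Fin g) (k : Fin g) (b : B) (v y : W) : ℝ :=
  if X.G.Adj v y ∧ X.bl y = none ∧ X.fat c y b then
    (if X.ak Ty L k v then X.tg Ty c σ off L k y b / X.na Ty L k y b else 0) - σ else 0

/-- scattered edges which are not flexible -/
noncomputable def p5 (X : Dat W B) (Ty : Kd → Prop) (c σ : ℝ) (L : W → Fin g) (k : Fin g)
    (v y : W) : ℝ :=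
  if X.bl y = none ∧ v ∈ X.nf c y then σ * (X.mv Ty L k v - 1) else 0

/-- normalised pairs of blocks -/
noncomputable def p7 (X : Dat W B) (Ty : Kd → Prop) (gr : W → Fin 3) (c σ ε' : ℝ)
    (L : W → Fin g) (k : Fin g) (b : B) (v y : W) : ℝ :=
  if X.Th.Adj v y then
    (match X.bl y with
    | none => 0
    | some b' => if X.nrm Ty c ε' b b' then
        (if X.us Ty gr L k v y then σ * X.e b b' / X.eu Ty gr L k b b' else 0) - σ else 0) else 0

/-- pairs of blocks with weight `0` -/
noncomputable def p8 (X : Dat W B) (Ty : Kd → Prop) (σ ε' : ℝ) (b : B) (v y : W) : ℝ :=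
  if X.Th.Adj v y then
    (match X.bl y with
    | none => 0
    | some b' => if X.zer Ty ε' b b' then -σ else 0) else 0

/-- the other pairs in the cluster -/
noncomputable def p9 (X : Dat W B) (Ty : Kd → Prop) (σ : ℝ) (L : W → Fin g) (k : Fin g) (b : B)
    (v y : W) : ℝ :=
  if X.Th.Adj v y then
    (match X.bl y with
    | none => 0
    | some b' => if X.cb b' = X.cb b ∧ ¬ (Ty (X.kd b) ∧ Ty (X.kd b')) then
        σ * (X.mv Ty L k v * X.mv Ty L k y - 1) else 0) else 0

theorem bas_O {v y : W} (h : X.bl y = none) : X.bas Ty σ s(v, y) = σ := by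
  unfold Dat.bas
  rw [if_neg, mul_one]
  intro h1
  exact ty_none h (h1 y (by simp))

theorem bas_L {v y : W} : X.bas Ty σ s(v, y) =
    σ * (if X.ty Ty v ∧ X.ty Ty y then 3 / 2 else 1) := by
  unfold Dat.bas
  congr 1
  refine if_congr ?_ rfl rfl
  simp

theorem w0_O {v y : W} {b : B} (hv : X.bl v = some b) (h : X.bl y = none) (hσ : 0 < σ) :
    X.w0 Ty c σ off k s(v, y) = σ + if X.h3 c y then off k y / ((X.sc c y).card : ℝ) else 0 := by
  unfold Dat.w0
  rw [bas_O h]
  have h1 : (univ.filter fun x => x ∈ s(v, y) ∧ X.h3 c x) =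
      if X.h3 c y then {y} else ∅ := by
    ext x
    rw [mem_filter, Sym2.mem_iff]
    have hv3 : ¬ X.h3 c v := by
      intro h2
      have := h2.1.1
      rw [hv] at this
      exact Option.some_ne_none _ this
    split_ifs with h2
    · rw [mem_singleton]
      constructor
      · rintro ⟨_, rfl | rfl, h3⟩
        · exact absurd h3 hv3
        · rfl
      · rintro rfl
        exact ⟨mem_univ _, Or.inr rfl, h2⟩
    · simp only [notMem_empty, iff_false]
      rintro ⟨_, rfl | rfl, h3⟩
      · exact hv3 h3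
      · exact h2 h3
  rw [h1]
  split_ifs with h2
  · rw [sum_singleton]
    field_simp
  · rw [sum_empty]
    ring

theorem w0_L {v y : W} {b b' : B} (hv : X.bl v = some b) (hy : X.bl y = some b') :
    X.w0 Ty c σ off k s(v, y) = σ * (if X.ty Ty v ∧ X.ty Ty y then 3 / 2 else 1) := by
  unfold Dat.w0
  rw [bas_L]
  have h1 : (univ.filter fun x => x ∈ s(v, y) ∧ X.h3 c x) = ∅ := by
    rw [eq_empty_iff_forall_notMem]
    intro x hx
    rw [mem_filter, Sym2.mem_iff] at hx
    obtain ⟨_, rfl | rfl, h3⟩ := hx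
    · have := h3.1.1
      rw [hv] at this
      exact Option.some_ne_none _ this
    · have := h3.1.1
      rw [hy] at this
      exact Option.some_ne_none _ this
  rw [h1, sum_empty]
  ring

/-- **The decomposition.** -/
theorem tau_eq (hE : Env X M C ζ θ c) (hσ : 0 < σ) {b : B} (hb : X.kd b = Kd.S) {v y : W}
    (hv : X.bl v = some b) :
    tau X Ty gr c σ ε' off L w' k v y = p1 X Ty gr c σ off w' k v y + p2 X c off k v y +
      p3 X Ty gr c σ v y + p4 X Ty c σ off L k b v y + p5 X Ty c σ L k v y +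
      p7 X Ty gr c σ ε' L k b v y + p8 X Ty σ ε' b v y + p9 X Ty σ L k b v y := by
  by_cases hT : X.Th.Adj v y
  swap
  · -- not adjacent
    have hG : X.bl y = none → ¬ X.G.Adj v y := fun h h1 => hT ((th_O hE h).2 h1)
    have hfl : ¬ X.fl Ty gr c v y := by
      rintro (h | h)
      · have h1 := (mem_filter.1 h.2.1).1
        exact hG h.1 (mem_nb.1 h1).symm
      · exact hT h.1
    have hflH : ¬ (X.flH c v y ∧ X.h3 c y) := fun h => hfl (Or.inl h.1)
    have h5 : ¬ (X.bl y = none ∧ v ∈ X.nf c y) := by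
      rintro ⟨h, h1⟩
      exact hG h (mem_nb.1 (mem_filter.1 h1).1).symm
    have h4 : ¬ (X.G.Adj v y ∧ X.bl y = none ∧ X.fat c y b) := fun h => hG h.2.1 h.1
    unfold tau p1 p2 p3 p4 p5 p7 p8 p9 Dat.wt
    rw [if_pos hT, if_neg hT, if_neg hfl, if_neg hflH, if_neg (fun h => hT h.1), if_neg h4,
      if_neg h5, if_neg hT, if_neg hT, if_neg hT]
    ring
  rcases hy : X.bl y with _ | b'
  · -- `y` in `O`
    have h3 : p3 X Ty gr c σ v y = 0 := by
      unfold p3
      rw [if_neg]
      rintro ⟨_, ⟨_, b', _, h2, _⟩, _⟩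
      rw [hy] at h2
      exact absurd h2.symm (Option.some_ne_none _)
    have h7 : p7 X Ty gr c σ ε' L k b v y = 0 := by
      unfold p7
      rw [if_pos hT, hy]
    have h8 : p8 X Ty σ ε' b v y = 0 := by
      unfold p8
      rw [if_pos hT, hy]
    have h9 : p9 X Ty σ L k b v y = 0 := by
      unfold p9
      rw [if_pos hT, hy]
    have hGv : X.G.Adj v y := (th_O hE hy).1 hT
    by_cases hf : X.flH c v y
    · have hfl : X.fl Ty gr c v y := Or.inl hf
      have hnf : v ∉ X.nf c y := fun h => (mem_filter.1 h).2.2 hf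
      have hnfat : ¬ X.fat c y b := by
        obtain ⟨b1, h1, h2, _⟩ := (mem_filter.1 hf.2.1).2
        rw [hv] at h1
        rw [← Option.some.inj h1] at h2
        exact h2
      have h1 : p1 X Ty gr c σ off w' k v y =
          w' k s(v, y) - (σ + if X.h3 c y then off k y / ((X.sc c y).card : ℝ) else 0) := by
        unfold p1
        rw [if_pos hfl, w0_O hv hy hσ]
      have h2 : p2 X c off k v y = if X.h3 c y then off k y / ((X.sc c y).card : ℝ) else 0 := by
        unfold p2
        by_cases h : X.h3 c y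
        · rw [if_pos ⟨hf, h⟩, if_pos h]
        · rw [if_neg (fun h' => h h'.2), if_neg h]
      have h4 : p4 X Ty c σ off L k b v y = 0 := by
        unfold p4
        rw [if_neg (fun h => hnfat h.2.2)]
      have h5 : p5 X Ty c σ L k v y = 0 := by
        unfold p5
        rw [if_neg (fun h => hnf h.2)]
      rw [h1, h2, h3, h4, h5, h7, h8, h9]
      unfold tau Dat.wt
      rw [if_neg (not_not.2 hT), if_pos (Or.inl hfl), if_pos hT]
      ring
    · have hnfl : ¬ X.fl Ty gr c v y := by
        rintro (h | h)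
        · exact hf h
        · obtain ⟨_, ⟨_, b', _, h2, _⟩, _⟩ := h
          rw [hy] at h2
          exact absurd h2.symm (Option.some_ne_none _)
      have h1 : p1 X Ty gr c σ off w' k v y = 0 := by
        unfold p1
        rw [if_neg hnfl]
      have h2 : p2 X c off k v y = 0 := by
        unfold p2
        rw [if_neg (fun h => hf h.1)]
      have hwt : X.wt Ty gr c σ ε' off L w' k v y = if X.fat c y b then
          (if X.ak Ty L k v then X.tg Ty c σ off L k y b / X.na Ty L k y b else 0)
          else σ * X.mv Ty L k v := by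
        unfold Dat.wt
        rw [if_neg (not_not.2 hT), if_neg (fun h => hnfl ((fl_iff hv).1 h)), hv, hy]
      unfold tau
      rw [hwt, if_pos hT, h1, h2, h3, h7, h8, h9]
      by_cases hfat : X.fat c y b
      · have h5 : p5 X Ty c σ L k v y = 0 := by
          unfold p5
          rw [if_neg]
          rintro ⟨_, h⟩
          obtain ⟨b1, h6, h7'⟩ := (mem_filter.1 h).2.1
          rw [hv] at h6
          rw [← Option.some.inj h6] at h7'
          exact h7' hfat
        have h4 : p4 X Ty c σ off L k b v y =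
            (if X.ak Ty L k v then X.tg Ty c σ off L k y b / X.na Ty L k y b else 0) - σ := by
          unfold p4
          rw [if_pos (show X.G.Adj v y ∧ X.bl y = none ∧ X.fat c y b from ⟨hGv, hy, hfat⟩)]
        rw [if_pos hfat, h4, h5]
        ring
      · have h4 : p4 X Ty c σ off L k b v y = 0 := by
          unfold p4
          rw [if_neg (fun h => hfat h.2.2)]
        unfold p5
        rw [if_neg hfat, h4, if_pos]
        · ring
        · exact ⟨hy, mem_filter.2 ⟨mem_nb.2 hGv.symm, ⟨b, hv, hfat⟩, hf⟩⟩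
  · -- `y` light
    have hyn : X.bl y ≠ none := by
      rw [hy]
      exact Option.some_ne_none _
    have h2 : p2 X c off k v y = 0 := by
      unfold p2
      rw [if_neg (fun h => hyn h.1.1)]
    have h4 : p4 X Ty c σ off L k b v y = 0 := by
      unfold p4
      rw [if_neg (fun h => hyn h.2.1)]
    have h5 : p5 X Ty c σ L k v y = 0 := by
      unfold p5
      rw [if_neg (fun h => hyn h.1)]
    have hnH : ¬ X.flH c v y := fun h => hyn h.1
    have e7 : p7 X Ty gr c σ ε' L k b v y = if X.nrm Ty c ε' b b' then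
        (if X.us Ty gr L k v y then σ * X.e b b' / X.eu Ty gr L k b b' else 0) - σ else 0 := by
      unfold p7
      rw [if_pos hT, hy]
    have e8 : p8 X Ty σ ε' b v y = if X.zer Ty ε' b b' then -σ else 0 := by
      unfold p8
      rw [if_pos hT, hy]
    have e9 : p9 X Ty σ L k b v y = if X.cb b' = X.cb b ∧ ¬ (Ty (X.kd b) ∧ Ty (X.kd b')) then
        σ * (X.mv Ty L k v * X.mv Ty L k y - 1) else 0 := by
      unfold p9
      rw [if_pos hT, hy]
    rw [h2, h4, h5, e7, e8, e9]
    by_cases htp : X.tp c b b'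
    · -- thin pair of blocks
      have hcb : X.cb b ≠ X.cb b' := htp.1
      have hn : ¬ X.nrm Ty c ε' b b' := by
        rintro ⟨_, h | h⟩
        · exact h.2 htp
        · exact hcb h.1
      have hz : ¬ X.zer Ty ε' b b' := fun h => hcb h.2.1
      rw [if_neg hn, if_neg hz, if_neg (fun h => hcb h.1.symm)]
      by_cases hs : X.ty Ty v ∧ X.ty Ty y ∧ gr v = gr y
      · have hnfl : ¬ X.fl Ty gr c v y := by
          rintro (h | h)
          · exact hnH h
          · exact h.2.2 hs
        have h1 : p1 X Ty gr c σ off w' k v y = 0 := by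
          unfold p1
          rw [if_neg hnfl]
        have h3 : p3 X Ty gr c σ v y = σ * (-1) := by
          unfold p3
          rw [if_pos ⟨hT, ⟨b, b', hv, hy, htp⟩, hs.1, hs.2.1⟩, if_pos hs.2.2]
        rw [h1, h3]
        unfold tau Dat.wt
        rw [if_neg (not_not.2 hT), if_neg (fun h => hnfl ((fl_iff hv).1 h)), hv, hy]
        simp only
        rw [if_neg hn, if_neg hz, if_pos ⟨htp, Or.inl hb⟩, if_pos hT]
        ring
      · have hfl : X.fl Ty gr c v y := Or.inr ⟨hT, ⟨b, b', hv, hy, htp, Or.inl hb⟩, hs⟩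
        have h1 : p1 X Ty gr c σ off w' k v y =
            w' k s(v, y) - σ * (if X.ty Ty v ∧ X.ty Ty y then 3 / 2 else 1) := by
          unfold p1
          rw [if_pos hfl, w0_L hv hy]
        rw [h1]
        unfold tau Dat.wt
        rw [if_neg (not_not.2 hT), if_pos (Or.inl hfl), if_pos hT]
        unfold p3
        by_cases hty : X.ty Ty v ∧ X.ty Ty y
        · rw [if_pos hty, if_pos ⟨hT, ⟨b, b', hv, hy, htp⟩, hty⟩,
            if_neg (fun h => hs ⟨hty.1, hty.2, h⟩)]
          ring
        · rw [if_neg hty, if_neg (fun h => hty h.2.2)]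
          ring
    · -- not thin
      have hnfl : ¬ X.fl Ty gr c v y := by
        rintro (h | h)
        · exact hnH h
        · obtain ⟨_, ⟨b1, b2, h6, h7, h8, _⟩, _⟩ := h
          rw [hv] at h6
          rw [hy] at h7
          rw [← Option.some.inj h6, ← Option.some.inj h7] at h8
          exact htp h8
      have h1 : p1 X Ty gr c σ off w' k v y = 0 := by
        unfold p1
        rw [if_neg hnfl]
      have h3 : p3 X Ty gr c σ v y = 0 := by
        unfold p3
        rw [if_neg]
        rintro ⟨_, ⟨b1, b2, h6, h7, h8⟩, _⟩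
        rw [hv] at h6
        rw [hy] at h7
        rw [← Option.some.inj h6, ← Option.some.inj h7] at h8
        exact htp h8
      rw [h1, h3]
      unfold tau Dat.wt
      rw [if_neg (not_not.2 hT), if_neg (fun h => hnfl ((fl_iff hv).1 h)), hv, hy]
      simp only
      rw [if_pos hT]
      by_cases hn : X.nrm Ty c ε' b b'
      · have hz : ¬ X.zer Ty ε' b b' := by
          rintro ⟨_, h6, h7, h8, h9⟩
          rcases hn.2 with h | h
          · exact h.1 h6
          · linarith [h.2.2.2]
        have h9 : ¬ (X.cb b' = X.cb b ∧ ¬ (Ty (X.kd b) ∧ Ty (X.kd b'))) := by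
          rintro ⟨h6, h7⟩
          rcases hn.2 with h | h
          · exact h.1 h6.symm
          · exact h7 ⟨h.2.1, h.2.2.1⟩
        rw [if_pos hn, if_pos hn, if_neg hz, if_neg h9]
        ring
      · by_cases hz : X.zer Ty ε' b b'
        · have h9 : ¬ (X.cb b' = X.cb b ∧ ¬ (Ty (X.kd b) ∧ Ty (X.kd b'))) := by
            rintro ⟨_, h7⟩
            exact h7 ⟨hz.2.2.1, hz.2.2.2.1⟩
          rw [if_neg hn, if_neg hn, if_pos hz, if_pos hz, if_neg h9]
          ring
        · have hcb : X.cb b' = X.cb b := by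
            by_contra hcon
            exact hn ⟨Or.inl hb, Or.inl ⟨fun h => hcon h.symm, htp⟩⟩
          have h9 : X.cb b' = X.cb b ∧ ¬ (Ty (X.kd b) ∧ Ty (X.kd b')) := by
            refine ⟨hcb, fun h => ?_⟩
            by_cases h10 : ε' * X.d ≤ X.e b b'
            · exact hn ⟨Or.inl hb, Or.inr ⟨hcb.symm, h.1, h.2, h10⟩⟩
            · exact hz ⟨Or.inl hb, hcb.symm, h.1, h.2, not_le.1 h10⟩
          rw [if_neg hn, if_neg hn, if_neg hz, if_neg hz, if_neg (fun h => htp h.1),
            if_pos (Or.inl hb), if_pos h9]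
          ring

end Pool.Agent.Work.MP_db9399_ts.helper75
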