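import Pool.Agent.Work.MP_db9399_ts_helper75.FRW1

/-!
# MP_db9399, TSPLIT, FRW: the sums at the blocks of kind S, part 2: sums of the pieces (helper75)
-/

set_option autoImplicit false
set_option linter.unusedSectionVars false

namespace Pool.Agent.Work.MP_db9399_ts.helper75

open Finset Classical
open Pool.Agent.Work.MP_db9399_all (nb)
open Pool.Agent.Work.MP_db9399_clj.helper75 (OO blk nB eE mem_nb dcount mem_blk mem_OO eE_nonneg)

universe u

variable {W B : Type u} [Fintype W] [Fintype B] {X : Dat W B} {c σ ε ε' : ℝ} {Ty : Kd → Prop}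
  {gr : W → Fin 3} {g : ℕ} {L : W → Fin g} {k : Fin g} {M : ℕ} {C ζ θ : ℝ}
  {off : Fin g → W → ℝ} {w' : Fin g → Sym2 W → ℝ}

theorem s1 (hL : LabF X Ty gr c σ ε ε' off L w') {b : B} (hb : X.kd b = Kd.S) :
    |∑ v ∈ blk X.bl b, ∑ y, p1 X Ty gr c σ off w' k v y| ≤ (X.d : ℝ) ^ (1 - c / 2) := by
  have h := hL.row k b hb
  simp only [sum_filter] at h
  exact h

theorem s2 (h3 : ∀ x, X.h3 c x → X.bl x = none ∧ (X.d : ℝ) ^ (c / 4) ≤ ((X.sc c x).card : ℝ))
    (hO : OffH X c ε (off k)) (b : B) :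
    |∑ v ∈ blk X.bl b, ∑ y, p2 X c off k v y| ≤ ε * X.d := by
  refine le_trans (le_of_eq ?_) (hO.r2 b)
  congr 1
  rw [sum_comm, sum_filter]
  refine sum_congr rfl fun y _ => ?_
  by_cases hy : X.h3 c y
  · rw [if_pos hy]
    have h1 : ∀ v ∈ blk X.bl b, p2 X c off k v y =
        if v ∈ X.sc c y then off k y / ((X.sc c y).card : ℝ) else 0 := by
      intro v _
      unfold p2
      refine if_congr ⟨fun h => h.1.2.1, fun h => ⟨⟨(h3 y hy).1, h, (h3 y hy).2⟩, hy⟩⟩ rfl rfl
    rw [sum_congr rfl h1, ← sum_filter, sum_const, nsmul_eq_mul]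
    have h2 : (blk X.bl b).filter (fun v => v ∈ X.sc c y) = X.sc c y ∩ blk X.bl b := by
      ext v
      rw [mem_filter, mem_inter]
      tauto
    rw [h2]
    ring
  · rw [if_neg hy]
    refine sum_eq_zero fun v _ => ?_
    unfold p2
    rw [if_neg (fun h => hy h.2)]

theorem cx_sum (gr : W → Fin 3) (A A' : Finset W) :
    X.cx gr A A' = ∑ v ∈ A, ∑ w ∈ A', if X.Th.Adj v w ∧ gr v ≠ gr w then (1 : ℝ) else 0 := by
  unfold Dat.cx Dat.cg
  have h1 : ∀ a a' : Fin 3, (if a = a' then (0 : ℝ) else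
      eE X.Th (A.filter fun v => gr v = a) (A'.filter fun v => gr v = a')) =
      ∑ v ∈ A, ∑ w ∈ A', if gr v = a ∧ gr w = a' then
        (if X.Th.Adj v w ∧ gr v ≠ gr w then (1 : ℝ) else 0) else 0 := by
    intro a a'
    rw [eE_sum, sum_filter]
    split_ifs with h
    · refine (sum_eq_zero fun v _ => sum_eq_zero fun w _ => ?_).symm
      split_ifs with h2 h3
      · exact absurd (h2.1.trans (h.trans h2.2.symm)) h3.2
      · rfl
      · rfl
    · refine sum_congr rfl fun v _ => ?_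
      split_ifs with h2
      · rw [sum_filter]
        refine sum_congr rfl fun w _ => ?_
        by_cases h3 : gr w = a'
        · rw [if_pos h3, if_pos (show gr v = a ∧ gr w = a' from ⟨h2, h3⟩)]
          refine if_congr ⟨fun h4 => ⟨h4, fun h5 => h ?_⟩, fun h4 => h4.1⟩ rfl rfl
          rw [← h2, ← h3, h5]
        · rw [if_neg h3, if_neg (fun h4 => h3 h4.2)]
      · refine (sum_eq_zero fun w _ => ?_).symm
        rw [if_neg (fun h4 => h2 h4.1)]
  simp only [h1]
  calc ∑ a : Fin 3, ∑ a' : Fin 3, ∑ v ∈ A, ∑ w ∈ A', (if gr v = a ∧ gr w = a' then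
        (if X.Th.Adj v w ∧ gr v ≠ gr w then (1 : ℝ) else 0) else 0) =
      ∑ a : Fin 3, ∑ v ∈ A, ∑ w ∈ A', ∑ a' : Fin 3, (if gr v = a ∧ gr w = a' then
        (if X.Th.Adj v w ∧ gr v ≠ gr w then (1 : ℝ) else 0) else 0) := by
        refine sum_congr rfl fun a _ => ?_
        rw [sum_comm]
        refine sum_congr rfl fun v _ => ?_
        rw [sum_comm]
    _ = ∑ v ∈ A, ∑ w ∈ A', ∑ a : Fin 3, ∑ a' : Fin 3, (if gr v = a ∧ gr w = a' then
        (if X.Th.Adj v w ∧ gr v ≠ gr w then (1 : ℝ) else 0) else 0) := by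
        rw [sum_comm]
        refine sum_congr rfl fun v _ => ?_
        rw [sum_comm]
    _ = _ := by
        refine sum_congr rfl fun v _ => sum_congr rfl fun w _ => ?_
        have h2 : ∀ a : Fin 3, ∑ a' : Fin 3, (if gr v = a ∧ gr w = a' then
            (if X.Th.Adj v w ∧ gr v ≠ gr w then (1 : ℝ) else 0) else 0) =
            if gr v = a then (if X.Th.Adj v w ∧ gr v ≠ gr w then (1 : ℝ) else 0) else 0 := by
          intro a
          by_cases h3 : gr v = a
          · rw [if_pos h3, sum_eq_single (gr w)]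
            · rw [if_pos ⟨h3, rfl⟩]
            · intro a' _ h4
              rw [if_neg (fun h5 => h4 h5.2.symm)]
            · intro h4
              exact absurd (mem_univ _) h4
          · rw [if_neg h3]
            refine sum_eq_zero fun a' _ => ?_
            rw [if_neg (fun h5 => h3 h5.1)]
        rw [sum_congr rfl fun a _ => h2 a, sum_eq_single (gr v)]
        · rw [if_pos rfl]
        · intro a _ h4
          rw [if_neg (fun h5 => h4 h5.symm)]
        · intro h4
          exact absurd (mem_univ _) h4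

theorem mem_far {b : B} {κ : Kd} {w : W} :
    w ∈ X.far c b κ ↔ ∃ b', X.bl w = some b' ∧ X.kd b' = κ ∧ X.tp c b b' := by
  rw [Dat.far, mem_filter]
  exact ⟨fun h => h.2, fun h => ⟨mem_univ _, h⟩⟩

theorem s3 (hG : Grp X c gr) (hσ : 0 < σ) (hσ1 : σ ≤ 1)
    (hTy : Ty = (fun κ => κ = Kd.K) ∨ Ty = fun κ => κ ≠ Kd.K) {b : B} (hb : X.kd b = Kd.S) :
    |∑ v ∈ blk X.bl b, ∑ y, p3 X Ty gr c σ v y| ≤ 3 * (X.d : ℝ) ^ (1 - 2 * c / 5) := by
  have hd0 : 0 ≤ (X.d : ℝ) ^ (1 - 2 * c / 5) := by positivity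
  rcases hTy with hTy | hTy
  · rw [sum_eq_zero, abs_zero]
    · positivity
    intro v hv
    refine sum_eq_zero fun y _ => ?_
    unfold p3
    rw [if_neg]
    rintro ⟨_, _, h1, _⟩
    rw [ty_iff (mem_blk.1 hv), hTy, hb] at h1
    exact absurd h1 (by simp)
  · have hF : ∀ κ, |∑ v ∈ blk X.bl b, ∑ y ∈ X.far c b κ,
        (if X.Th.Adj v y then (if gr v = gr y then (-1 : ℝ) else 1 / 2) else 0)| ≤
        3 / 2 * (X.d : ℝ) ^ (1 - 2 * c / 5) := by
      intro κ
      have h1 := hG.row2 b κ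
      have h2 : ∑ v ∈ blk X.bl b, ∑ y ∈ X.far c b κ,
          (if X.Th.Adj v y then (if gr v = gr y then (-1 : ℝ) else 1 / 2) else 0) =
          3 / 2 * (X.cx gr (blk X.bl b) (X.far c b κ) -
            2 / 3 * eE X.Th (blk X.bl b) (X.far c b κ)) := by
        rw [cx_sum, eE_sum, mul_sum, ← sum_sub_distrib, mul_sum]
        refine sum_congr rfl fun v _ => ?_
        rw [mul_sum, ← sum_sub_distrib, mul_sum]
        refine sum_congr rfl fun y _ => ?_
        by_cases h3 : X.Th.Adj v y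
        · by_cases h4 : gr v = gr y
          · rw [if_pos h3, if_pos h4, if_neg (fun h => h.2 h4), if_pos h3]
            norm_num
          · rw [if_pos h3, if_neg h4, if_pos ⟨h3, h4⟩, if_pos h3]
            norm_num
        · rw [if_neg h3, if_neg (fun h => h3 h.1), if_neg h3]
          norm_num
      rw [h2, abs_mul, abs_of_pos (show (0 : ℝ) < 3 / 2 by norm_num)]
      exact mul_le_mul_of_nonneg_left h1 (by norm_num)
    have h1 : ∑ v ∈ blk X.bl b, ∑ y, p3 X Ty gr c σ v y =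
        σ * (∑ v ∈ blk X.bl b, ∑ y ∈ X.far c b Kd.N,
          (if X.Th.Adj v y then (if gr v = gr y then (-1 : ℝ) else 1 / 2) else 0) +
        ∑ v ∈ blk X.bl b, ∑ y ∈ X.far c b Kd.S,
          (if X.Th.Adj v y then (if gr v = gr y then (-1 : ℝ) else 1 / 2) else 0)) := by
      rw [← sum_add_distrib, mul_sum]
      refine sum_congr rfl fun v hv => ?_
      have hdisj : Disjoint (X.far c b Kd.N) (X.far c b Kd.S) := by
        rw [disjoint_left]
        intro w h1 h2
        obtain ⟨b1, h3, h4, _⟩ := mem_far.1 h1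
        obtain ⟨b2, h5, h6, _⟩ := mem_far.1 h2
        rw [h3] at h5
        rw [Option.some.inj h5, h6] at h4
        exact absurd h4 (by simp)
      rw [← sum_union hdisj, mul_sum, ← sum_filter_add_sum_filter_not univ
        (fun y => y ∈ X.far c b Kd.N ∪ X.far c b Kd.S)]
      have h2 : univ.filter (fun y => y ∈ X.far c b Kd.N ∪ X.far c b Kd.S) =
          X.far c b Kd.N ∪ X.far c b Kd.S := by
        ext y
        rw [mem_filter]
        exact ⟨fun h => h.2, fun h => ⟨mem_univ _, h⟩⟩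
      rw [h2]
      have hv' := mem_blk.1 hv
      have h3 : ∑ y with ¬ y ∈ X.far c b Kd.N ∪ X.far c b Kd.S, p3 X Ty gr c σ v y = 0 := by
        refine sum_eq_zero fun y hy => ?_
        unfold p3
        rw [if_neg]
        rintro ⟨_, ⟨b1, b2, h4, h5, h6⟩, _, h7⟩
        rw [hv'] at h4
        rw [← Option.some.inj h4] at h6
        rw [ty_iff h5, hTy] at h7
        refine (mem_filter.1 hy).2 (mem_union.2 ?_)
        rcases h8 : X.kd b2 with _ | _ | _
        · exact absurd h8 h7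
        · exact Or.inl (mem_far.2 ⟨b2, h5, h8, h6⟩)
        · exact Or.inr (mem_far.2 ⟨b2, h5, h8, h6⟩)
      rw [h3, add_zero]
      refine sum_congr rfl fun y hy => ?_
      have h4 : ∃ b2, X.bl y = some b2 ∧ X.kd b2 ≠ Kd.K ∧ X.tp c b b2 := by
        rcases mem_union.1 hy with h | h
        · obtain ⟨b2, h5, h6, h7⟩ := mem_far.1 h
          exact ⟨b2, h5, by rw [h6]; simp, h7⟩
        · obtain ⟨b2, h5, h6, h7⟩ := mem_far.1 h
          exact ⟨b2, h5, by rw [h6]; simp, h7⟩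
      obtain ⟨b2, h5, h6, h7⟩ := h4
      unfold p3
      by_cases hT : X.Th.Adj v y
      · rw [if_pos hT, if_pos]
        refine ⟨hT, ⟨b, b2, hv', h5, h7⟩, ?_, ?_⟩
        · rw [ty_iff hv', hTy, hb]
          simp
        · rw [ty_iff h5, hTy]
          exact h6
      · rw [if_neg hT, if_neg (fun h => hT h.1), mul_zero]
    rw [h1, abs_mul, abs_of_pos hσ]
    have h2 := hF Kd.N
    have h3 := hF Kd.S
    have h4 := (abs_add_le (∑ v ∈ blk X.bl b, ∑ y ∈ X.far c b Kd.N,
      (if X.Th.Adj v y then (if gr v = gr y then (-1 : ℝ) else 1 / 2) else 0))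
      (∑ v ∈ blk X.bl b, ∑ y ∈ X.far c b Kd.S,
      (if X.Th.Adj v y then (if gr v = gr y then (-1 : ℝ) else 1 / 2) else 0)))
    calc _ ≤ 1 * (3 / 2 * (X.d : ℝ) ^ (1 - 2 * c / 5) + 3 / 2 * (X.d : ℝ) ^ (1 - 2 * c / 5)) :=
          mul_le_mul hσ1 (by linarith) (abs_nonneg _) zero_le_one
      _ = _ := by ring

/-- one fat pair -/
theorem fat_one {b : B} {y : W} (hy : X.na Ty L k y b ≠ 0) :
    ∑ v ∈ blk X.bl b, (if X.G.Adj v y then
      ((if X.ak Ty L k v then X.tg Ty c σ off L k y b / X.na Ty L k y b else 0) - σ) else 0) =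
      X.tg Ty c σ off L k y b - σ * X.n y b := by
  have h1 : ∑ v ∈ blk X.bl b, (if X.G.Adj v y then
      ((if X.ak Ty L k v then X.tg Ty c σ off L k y b / X.na Ty L k y b else 0) - σ) else 0) =
      ∑ v ∈ blk X.bl b, (if X.G.Adj v y ∧ X.ak Ty L k v then
        X.tg Ty c σ off L k y b / X.na Ty L k y b else 0) -
      ∑ v ∈ blk X.bl b, if X.G.Adj v y then σ else 0 := by
    rw [← sum_sub_distrib]
    refine sum_congr rfl fun v _ => ?_
    by_cases h2 : X.G.Adj v y
    · by_cases h3 : X.ak Ty L k v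
      · rw [if_pos h2, if_pos h3, if_pos ⟨h2, h3⟩, if_pos h2]
      · rw [if_pos h2, if_neg h3, if_neg (fun h => h3 h.2), if_pos h2]
    · rw [if_neg h2, if_neg (fun h => h2 h.1), if_neg h2, sub_zero]
  rw [h1, ← sum_filter, ← sum_filter, sum_const, sum_const, nsmul_eq_mul, nsmul_eq_mul]
  have h2 : (((blk X.bl b).filter fun v => X.G.Adj v y ∧ X.ak Ty L k v).card : ℝ) =
      X.na Ty L k y b := by
    unfold Dat.na
    congr 2
    ext v
    rw [mem_filter, mem_filter, mem_blk, mem_nb, X.G.adj_comm]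
    tauto
  have h3 : (((blk X.bl b).filter fun v => X.G.Adj v y).card : ℝ) = X.n y b := by
    unfold Dat.n nB
    congr 2
    ext v
    rw [mem_filter, mem_inter, mem_nb, X.G.adj_comm]
    tauto
  rw [h2, h3, mul_div_cancel₀ _ hy, mul_comm σ]

theorem s4 (hL : LabF X Ty gr c σ ε ε' off L w') (hO : OffH X c ε (off k)) (hσ : 0 < σ)
    (hσ1 : σ ≤ 1) {b : B} (hna : ∀ y, X.bl y = none → X.fat c y b → X.na Ty L k y b ≠ 0) :
    |∑ v ∈ blk X.bl b, ∑ y, p4 X Ty c σ off L k b v y| ≤ 2 * (ε * X.d) := by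
  have h1 : ∑ v ∈ blk X.bl b, ∑ y, p4 X Ty c σ off L k b v y =
      ∑ x with X.fr x ∧ ¬ X.h3 c x ∧ X.pb c x b, off k x * (X.n x b / X.fx c x) -
      σ * ∑ x with X.fr x ∧ ¬ X.h3 c x ∧ X.pb c x b,
        X.n x b / X.fx c x * ∑ v ∈ X.nf c x, (X.mv Ty L k v - 1) := by
    rw [sum_comm, mul_sum, ← sum_sub_distrib, sum_filter]
    refine sum_congr rfl fun y _ => ?_
    by_cases hy : X.bl y = none ∧ X.fat c y b
    · have h2 : ∀ v ∈ blk X.bl b, p4 X Ty c σ off L k b v y = if X.G.Adj v y then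
          ((if X.ak Ty L k v then X.tg Ty c σ off L k y b / X.na Ty L k y b else 0) - σ) else 0 := by
        intro v _
        unfold p4
        by_cases h3 : X.G.Adj v y
        · rw [if_pos ⟨h3, hy⟩, if_pos h3]
        · rw [if_neg (fun h => h3 h.1), if_neg h3]
      rw [sum_congr rfl h2, fat_one (hna y hy.1 hy.2)]
      unfold Dat.tg Dat.psh
      by_cases hpb : X.pb c y b
      · by_cases hf : X.fr y ∧ ¬ X.h3 c y
        · rw [if_pos hpb, if_pos hf, if_pos ⟨hf.1, hf.2, hpb⟩, ← mul_sum]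
          ring
        · rw [if_pos hpb, if_neg hf, if_neg (fun h => hf ⟨h.1, h.2.1⟩)]
          ring
      · rw [if_neg hpb, if_neg (fun h => hpb h.2.2)]
        ring
    · rw [if_neg (fun h => hy ⟨h.1.1, h.2.2.1⟩)]
      refine sum_eq_zero fun v _ => ?_
      unfold p4
      rw [if_neg (fun h => hy h.2)]
  rw [h1]
  have h2 := hO.r1 b
  have h3 := hL.n1 k b
  have h4 : |σ * ∑ x with X.fr x ∧ ¬ X.h3 c x ∧ X.pb c x b,
      X.n x b / X.fx c x * ∑ v ∈ X.nf c x, (X.mv Ty L k v - 1)| ≤ 1 * (ε * X.d) := by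
    rw [abs_mul, abs_of_pos hσ]
    exact mul_le_mul hσ1 h3 (abs_nonneg _) zero_le_one
  have h5 := abs_sub (∑ x with X.fr x ∧ ¬ X.h3 c x ∧ X.pb c x b, off k x * (X.n x b / X.fx c x))
    (σ * ∑ x with X.fr x ∧ ¬ X.h3 c x ∧ X.pb c x b,
      X.n x b / X.fx c x * ∑ v ∈ X.nf c x, (X.mv Ty L k v - 1))
  linarith

theorem s5 (hL : LabF X Ty gr c σ ε ε' off L w') (hσ : 0 < σ) (hσ1 : σ ≤ 1) (b : B) :
    |∑ v ∈ blk X.bl b, ∑ y, p5 X Ty c σ L k v y| ≤ ε * X.d := by
  have h1 : ∑ v ∈ blk X.bl b, ∑ y, p5 X Ty c σ L k v y =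
      σ * ∑ v ∈ blk X.bl b, (X.mv Ty L k v - 1) *
        ((univ.filter fun x => X.bl x = none ∧ v ∈ X.nf c x).card : ℝ) := by
    rw [mul_sum]
    refine sum_congr rfl fun v _ => ?_
    unfold p5
    rw [← sum_filter, sum_const, nsmul_eq_mul]
    ring
  rw [h1, abs_mul, abs_of_pos hσ]
  have := mul_le_mul hσ1 (hL.n3 k b) (abs_nonneg _) zero_le_one
  linarith

/-- a sum over light vertices by blocks -/
theorem by_blocks (A : Finset W) (F : B → W → W → ℝ) (G : W → W → ℝ)
    (h0 : ∀ v y, X.bl y = none → G v y = 0) (h1 : ∀ v y b', X.bl y = some b' → G v y = F b' v y) :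
    ∑ v ∈ A, ∑ y, G v y = ∑ b', ∑ v ∈ A, ∑ y ∈ blk X.bl b', F b' v y := by
  symm
  rw [sum_comm]
  refine sum_congr rfl fun v _ => ?_
  have h2 : ∀ b', ∑ y ∈ blk X.bl b', F b' v y =
      ∑ y, if X.bl y = some b' then F b' v y else 0 := by
    intro b'
    rw [← sum_filter]
    rfl
  simp only [h2]
  rw [sum_comm]
  refine sum_congr rfl fun y _ => ?_
  rcases h3 : X.bl y with _ | b'
  · rw [h0 v y h3]
    simp
  · rw [h1 v y b' h3]
    simp only [Option.some.injEq]
    rw [sum_ite_eq]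
    simp

end Pool.Agent.Work.MP_db9399_ts.helper75
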